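import Mathlib

set_option autoImplicit false
open Finset Polynomial Filter Topology

namespace Pool.Agent.Results.MP_041491_an.Sqrt3

variable {ι : Type} [Fintype ι] [DecidableEq ι]

/-- The sign encoded by a bit. -/
def sg (b : Bool) : ℝ := if b then 1 else -1

/-- The Walsh function of `S`. -/
def chi (S : Finset ι) (x : ι → Bool) : ℝ := ∏ i ∈ S, sg (x i)

/-- Expectation for the uniform measure on the cube. -/
noncomputable def ex (f : (ι → Bool) → ℝ) : ℝ := (∑ x, f x) / 2 ^ Fintype.card ι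

/-- The degree: the largest size of a set with nonzero Fourier-Walsh coefficient. -/
noncomputable def deg (f : (ι → Bool) → ℝ) : ℕ :=
  (univ.filter fun S : Finset ι => ex (fun x => f x * chi S x) ≠ 0).sup card

lemma orth (S T : Finset ι) : ∑ x, chi S x * chi T x = if S = T then 2 ^ Fintype.card ι else 0 := by
  have : ∀ (S : Finset ι) x, chi S x = ∏ i, if i ∈ S then sg (x i) else 1 := fun S x => by
    rw [prod_ite_mem, univ_inter, chi]
  simp only [this, ← prod_mul_distrib]
  rw [← Fintype.piFinset_univ, ← prod_univ_sum (fun _ => univ)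
    fun i b => (if i ∈ S then sg b else 1) * if i ∈ T then sg b else 1]
  split_ifs with h
  · subst h
    rw [← card_univ, ← prod_const]
    exact prod_congr rfl fun i _ => by split_ifs <;> norm_num [sg]
  · obtain ⟨i, hi⟩ := not_forall.1 fun k => h (Finset.ext k)
    exact prod_eq_zero (mem_univ i) (by by_cases a : i ∈ S <;> by_cases b : i ∈ T <;> simp_all [sg])

lemma coef (c : Finset ι → ℝ) (T : Finset ι) :
    ∑ x, (∑ S, c S * chi S x) * chi T x = c T * 2 ^ Fintype.card ι := by
  simp only [sum_mul, mul_assoc]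
  rw [sum_comm]; simp [← mul_sum, orth]

lemma pars (c : Finset ι → ℝ) : ∑ x, (∑ S, c S * chi S x) ^ 2 = (∑ S, c S ^ 2) * 2 ^ Fintype.card ι := by
  have : ∀ x, (∑ S, c S * chi S x) ^ 2 = ∑ T, c T * ((∑ S, c S * chi S x) * chi T x) := fun x => by
    rw [sq, mul_sum]; exact sum_congr rfl fun _ _ => by ring
  simp only [this]
  rw [sum_comm, sum_mul]
  exact sum_congr rfl fun S _ => by rw [← mul_sum, coef, sq, mul_assoc]

lemma expand' (p q : ℝ[X]) (d : ℕ) (x : ι → Bool) : (∏ i, (C (sg (x i)) * p + q)).coeff d =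
    ∑ S, (p ^ S.card * q ^ (Fintype.card ι - S.card)).coeff d * chi S x := by
  rw [prod_add, powerset_univ, finsetSum_coeff]
  refine sum_congr rfl fun S _ => ?_
  rw [prod_mul_distrib, prod_const, prod_const, ← map_prod, mul_assoc, coeff_C_mul, mul_comm, chi,
    card_univ_sdiff]

noncomputable def P (x : ι → Bool) : ℝ[X] := ∏ i, (C (sg (x i)) * X + 1)

lemma P2 (d : ℕ) : ∑ y : ι → Bool, (P y).coeff d ^ 2 = (Fintype.card ι).choose d * 2 ^ Fintype.card ι := by
  simp only [P, expand', pars, one_pow, mul_one, coeff_X_pow]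
  simp [eq_comm (a := d)]

lemma L1 (n d : ℕ) : (∑ x : Fin n → Bool, |(P x * P x).coeff d|) ^ 2 ≤
    (n + 1) * ((2 * n).choose d * 2 ^ (2 * n)) := by
  let N := fun x : Fin n → Bool => #{i | x i = true}
  have hN : ∀ x ∈ univ, N x ∈ range (n + 1) := fun x _ =>
    mem_range.2 (Nat.lt_succ_of_le ((card_filter_le _ _).trans (by simp)))
  have hP : ∀ x, P x = (X + 1) ^ N x * (-X + 1) ^ (n - N x) := fun x => by
    have := card_filter_add_card_filter_not (s := univ) fun i => x i = true
    rw [P, ← prod_filter_mul_prod_filter_not _ fun i => x i = true, prod_congr rfl (g := fun _ => X + 1),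
      prod_congr (s₂ := univ.filter fun i => ¬x i = true) rfl (g := fun _ => -X + 1), prod_const, prod_const]
    · congr 2; simp only [N, card_univ, Fintype.card_fin] at *; omega
    all_goals intro i hi; simp_all [sg]
  have e := P2 (ι := Fin n ⊕ Fin n) d
  rw [← (Equiv.sumArrowEquivProdArrow _ _ _).symm.sum_comp, Fintype.sum_prod_type,
    ← sum_fiberwise_of_maps_to hN] at e
  rw [← sum_fiberwise_of_maps_to hN]
  refine sq_sum_le_card_mul_sum_sq.trans ?_
  simp only [Fintype.card_sum, Fintype.card_fin, ← two_mul] at e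
  rw [← e, card_range]
  push_cast
  gcongr with j
  rw [sq, sum_mul_sum]
  refine sum_le_sum fun x hx => (sum_congr rfl fun y hy => ?_).trans_le
    (sum_le_sum_of_subset_of_nonneg (subset_univ _) fun _ _ _ => sq_nonneg _)
  have : P y = P x := by rw [hP, hP, (mem_filter.1 hx).2, (mem_filter.1 hy).2]
  rw [this, abs_mul_abs_self, sq, P.eq_1 (ι := _ ⊕ _), Fintype.prod_sum_type]
  simp only [Equiv.sumArrowEquivProdArrow_symm_apply_inl, Equiv.sumArrowEquivProdArrow_symm_apply_inr]
  rw [← P, ← P, this]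

lemma mult (r : ℕ) : 729 ^ r * ((4 * r).factorial * r.factorial ^ 2) ≤
    4 ^ r * (6 * r).factorial * (r + 1) ^ 3 := by
  induction r with
  | zero => simp
  | succ r ih =>
    simp only [mul_add, mul_one, Nat.factorial_succ, pow_succ _ r]
    have : 729 * ((4 * r + 4) * (4 * r + 3) * (4 * r + 2) * (4 * r + 1) * (r + 1) ^ 2) * (r + 1) ^ 3 ≤
        4 * ((6 * r + 6) * (6 * r + 5) * (6 * r + 4) * (6 * r + 3) * (6 * r + 2) * (6 * r + 1)) * (r + 2) ^ 3 := by
      ring_nf; omega
    have := Nat.mul_le_mul this ih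
    refine Nat.le_of_mul_le_mul_left ?_ (by positivity : 0 < (r + 1) ^ 3)
    calc _ = _ := by ring
      _ ≤ _ := this
      _ = _ := by ring

theorem result (K : ℝ) (K0 : 0 < K) (h : ∀ n, 1 ≤ n → ∀ f : (Fin n → Bool) → ℝ,
    √(ex fun x => f x ^ 2) ≤ K ^ deg f * ex fun x => |f x|) : √3 ≤ K := by
  have key : ∀ r m : ℕ, 1 ≤ r → (3 * m / (m + 5) : ℝ) ^ (6 * r) ≤
      ((m + 5) * r + 1) * (r + 1) ^ 3 * (max K 1 ^ 2) ^ (6 * r) := fun r m r1 => by
    obtain ⟨n, hn⟩ : ∃ n, n = (m + 5) * r := ⟨_, rfl⟩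
    let c := fun S : Finset (Fin n) => ((2 * X : ℝ[X]) ^ S.card * (X ^ 2 + 1) ^ (n - S.card)).coeff (6 * r)
    have fc : ∀ x : Fin n → Bool, (P x * P x).coeff (6 * r) = ∑ S, c S * chi S x := fun x => by
      have := expand' (2 * X) (X ^ 2 + 1) (6 * r) x
      rw [Fintype.card_fin] at this
      rw [← this, P, ← prod_mul_distrib]
      congr 2; ext1 i
      cases x i <;> simp [sg] <;> ring
    have cc : ∀ S, c S = 2 ^ S.card * if S.card ≤ 6 * r then
        ((X ^ 2 + 1 : ℝ[X]) ^ (n - S.card)).coeff (6 * r - S.card) else 0 := fun S => by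
      simp only [c]
      rw [mul_pow, mul_assoc, show (2 : ℝ[X]) = C 2 from rfl, ← C_pow, coeff_C_mul, coeff_X_pow_mul']
    have h1 := h n (by nlinarith) fun x => (P x * P x).coeff (6 * r)
    have dg : (deg fun x : Fin n → Bool => (P x * P x).coeff (6 * r)) ≤ 6 * r := Finset.sup_le fun S hS => by
      by_contra k
      simp only [ex, fc, coef] at hS
      simp [cc, k] at hS
    have h2 := L1 n (6 * r)
    have h3 : (n.choose (4 * r) : ℝ) * (2 ^ (4 * r) * (n - 4 * r).choose r) ^ 2 ≤ ∑ S, c S ^ 2 := by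
      refine le_trans (le_of_eq ?_) (sum_le_sum_of_subset_of_nonneg (subset_univ (powersetCard (4 * r) univ))
        fun _ _ _ => sq_nonneg _)
      rw [sum_congr rfl (g := fun _ => (2 ^ (4 * r) * ((n - 4 * r).choose r : ℝ)) ^ 2)]
      · simp
      intro S hS
      rw [cc, (mem_powersetCard.1 hS).2, if_pos (by omega), show 6 * r - 4 * r = r * 2 by omega,
        show (X ^ 2 + 1 : ℝ[X]) = Polynomial.expand ℝ 2 (X + 1) by simp, ← map_pow, coeff_expand_mul two_pos,
        coeff_X_add_one_pow]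
    have k1 : K ^ (deg fun x : Fin n → Bool => (P x * P x).coeff (6 * r)) ≤ max K 1 ^ (6 * r) :=
      (pow_le_pow_left₀ K0.le (le_max_left _ _) _).trans (pow_le_pow_right₀ (le_max_right _ _) dg)
    replace h1 := Real.sqrt_le_left (by simp only [ex]; positivity) |>.1 (h1.trans (mul_le_mul_of_nonneg_right k1
      (by simp only [ex]; positivity)))
    simp only [ex, Fintype.card_fin] at h1
    rw [mul_pow, div_pow, ← pow_mul, mul_comm _ 2, pow_mul] at h1
    replace h1 := h1.trans (mul_le_mul_of_nonneg_left (div_le_div_of_nonneg_right h2 (by positivity))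
      (by positivity))
    simp only [fc, pars, Fintype.card_fin] at h1
    rw [mul_div_cancel_right₀ _ (by positivity), ← pow_mul 2, mul_comm n 2, mul_div_assoc,
      mul_div_cancel_right₀ _ (by positivity)] at h1
    have a1 := Nat.pow_le_choose (α := ℝ) (4 * r) n
    have a2 := Nat.pow_le_choose (α := ℝ) r (n - 4 * r)
    have a3 := Nat.choose_le_pow_div (α := ℝ) (6 * r) (2 * n)
    have a4 : (729 : ℝ) ^ r * ((4 * r).factorial * r.factorial ^ 2) ≤
      4 ^ r * (6 * r).factorial * (r + 1) ^ 3 := by exact_mod_cast mult r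
    have b1 : (m * r : ℝ) ≤ (n + 1 - 4 * r : ℕ) := by
      exact_mod_cast (by rw [hn, add_mul]; omega : m * r ≤ n + 1 - 4 * r)
    have b2 : (m * r : ℝ) ≤ (n - 4 * r + 1 - r : ℕ) := by
      exact_mod_cast (by rw [hn, add_mul]; omega : m * r ≤ n - 4 * r + 1 - r)
    have hn' : (n : ℝ) = (m + 5) * r := by exact_mod_cast hn
    have r0 : (0 : ℝ) < r := by exact_mod_cast r1
    have : (m * r : ℝ) ^ (4 * r) / (4 * r).factorial * (2 ^ (4 * r) * ((m * r) ^ r / r.factorial)) ^ 2 ≤
        (max K 1 ^ 2) ^ (6 * r) * ((n + 1) * ((2 * n : ℕ) ^ (6 * r) / (6 * r).factorial)) :=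
      le_trans (by gcongr; exacts [le_trans (by gcongr) a1, le_trans (by gcongr) a2])
        (h3.trans (h1.trans (by gcongr)))
    push_cast at this
    rw [← hn']
    generalize (max K 1 ^ 2) ^ (6 * r) = Z at *
    refine le_of_mul_le_mul_right (a := (2 * n : ℝ) ^ (6 * r) / (6 * r).factorial / (r + 1) ^ 3)
      (le_trans ?_ (this.trans_eq ?_)) (by rw [hn']; positivity)
    · rw [← sub_nonneg] at a4 ⊢
      convert mul_nonneg a4 (by positivity : (0 : ℝ) ≤ (m * r) ^ (6 * r) * 64 ^ r /
        ((4 * r).factorial * r.factorial ^ 2 * (6 * r).factorial * (r + 1) ^ 3)) using 1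
      rw [hn', show (729 : ℝ) = 3 ^ 6 by norm_num, show (64 : ℝ) = 2 ^ 6 by norm_num,
        show (4 : ℝ) = 2 ^ 2 by norm_num]
      simp only [div_pow, mul_pow, ← pow_mul]
      field_simp; ring
    · field_simp
  have k2 : ∀ m : ℕ, (3 * m / (m + 5) : ℝ) ≤ max K 1 ^ 2 := fun m => by
    by_contra! hh
    have z0 : 0 < max K 1 ^ 2 := by positivity
    have q : 1 < (3 * m / (m + 5) / max K 1 ^ 2 : ℝ) ^ 6 := one_lt_pow₀ ((one_lt_div z0).2 hh) (by simp)
    obtain ⟨r, h1, h2⟩ := (((tendsto_pow_const_div_const_pow_of_one_lt 4 q).eventually_lt_const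
      (by positivity : (0 : ℝ) < 1 / (8 * (m + 6)))).and (eventually_ge_atTop 1)).exists
    have := key r m h2
    have r1 : (1 : ℝ) ≤ r := by exact_mod_cast h2
    rw [← div_le_iff₀ (by positivity), ← div_pow, pow_mul] at this
    rw [div_lt_div_iff₀ (by positivity) (by positivity)] at h1
    have : ((m + 5) * r + 1 : ℝ) * (r + 1) ^ 3 ≤ ((m + 5) * r + r) * (r + r) ^ 3 := by gcongr
    linarith
  have k3 : 3 ≤ max K 1 ^ 2 := le_of_forall_pos_le_add fun ε e0 => by
    obtain ⟨m, hm⟩ := exists_nat_gt (15 / ε)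
    have := k2 m
    rw [div_lt_iff₀ e0] at hm
    rw [div_le_iff₀ (by positivity)] at this
    refine le_of_mul_le_mul_right ?_ (by positivity : (0 : ℝ) < m + 5)
    nlinarith
  rcases le_total K 1 with l | l
  · rw [max_eq_right l] at k3; norm_num at k3
  · rw [max_eq_left l] at k3; exact Real.sqrt_le_iff.2 ⟨K0.le, k3⟩

end Pool.Agent.Results.MP_041491_an.Sqrt3
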